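import Mathlib.Analysis.InnerProductSpace.Basic
import Mathlib.Geometry.Manifold.VectorBundle.Tangent
import Mathlib.Topology.VectorBundle.Hom

/-! Definitions: spacetimes, the after relation and Kripke semantics of modal formulas. -/

namespace Pool.Agent.MP_98ebd8_lc

open scoped Manifold ContDiff
open Bundle

section Fields

variable (E : Type) [NormedAddCommGroup E] [NormedSpace ℝ E] (M : Type) [TopologicalSpace M]
  [ChartedSpace E M]

/-- fields of continuous bilinear forms on the tangent spaces -/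
def BilinField : Type := ∀ x : M, TangentSpace 𝓘(ℝ, E) x →L[ℝ] TangentSpace 𝓘(ℝ, E) x →L[ℝ] ℝ

/-- vector fields -/
def VecField : Type := ∀ x : M, TangentSpace 𝓘(ℝ, E) x

variable {E M}

/-- the value of a field of bilinear forms on two tangent vectors -/
noncomputable def BilinField.val (g : BilinField E M) (x : M) (v w : TangentSpace 𝓘(ℝ, E) x) : ℝ := g x v w

/-- smoothness as a section of the bundle of bilinear forms -/
def BilinField.IsSmooth [IsManifold 𝓘(ℝ, E) ∞ M] (g : BilinField E M) : Prop :=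
  ContMDiff 𝓘(ℝ, E) (𝓘(ℝ, E).prod 𝓘(ℝ, E →L[ℝ] E →L[ℝ] ℝ)) ∞
    (fun x : M => TotalSpace.mk' (E →L[ℝ] E →L[ℝ] ℝ)
      (E := fun y : M => TangentSpace 𝓘(ℝ, E) y →L[ℝ] TangentSpace 𝓘(ℝ, E) y →L[ℝ] ℝ) x (g x))

/-- smoothness as a section of the tangent bundle -/
def VecField.IsSmooth [IsManifold 𝓘(ℝ, E) ∞ M] (T : VecField E M) : Prop :=
  ContMDiff 𝓘(ℝ, E) 𝓘(ℝ, E).tangent ∞
    fun x : M => (TotalSpace.mk' E x (T x) : TangentBundle 𝓘(ℝ, E) M)

end Fields

/-- A smooth Lorentzian metric of signature `(-,+,...,+)` on an `n`-manifold `M` modelled on `E`,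
together with a time orientation given by a smooth timelike vector field. -/
structure Spacetime (n : ℕ) (E : Type) [NormedAddCommGroup E] [NormedSpace ℝ E] (M : Type)
    [TopologicalSpace M] [ChartedSpace E M] [IsManifold 𝓘(ℝ, E) ∞ M] [T2Space M]
    [ConnectedSpace M] where
  g : BilinField E M
  symm : ∀ (x : M) (v w : TangentSpace 𝓘(ℝ, E) x), g.val x v w = g.val x w v
  smooth : g.IsSmooth
  signature : ∀ x : M, ∃ b : Module.Basis (Fin n) ℝ (TangentSpace 𝓘(ℝ, E) x), ∀ i j : Fin n,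
    g.val x (b i) (b j) = if i = j then (if (i : ℕ) = 0 then -1 else 1) else 0
  time : VecField E M
  time_smooth : time.IsSmooth
  time_timelike : ∀ x : M, g.val x (time x) (time x) < 0

variable {n : ℕ} {E : Type} [NormedAddCommGroup E] [NormedSpace ℝ E] {M : Type}
  [TopologicalSpace M] [ChartedSpace E M] [IsManifold 𝓘(ℝ, E) ∞ M] [T2Space M] [ConnectedSpace M]

/-- `v` is causal (nonzero with `g v v ≤ 0`) and future-directed. -/
def Spacetime.FutureCausal (S : Spacetime n E M) (x : M) (v : TangentSpace 𝓘(ℝ, E) x) : Prop :=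
  v ≠ 0 ∧ S.g.val x v v ≤ 0 ∧ S.g.val x (S.time x) v < 0

/-- A smooth curve `[a, b] → M` from `x` to `y` all of whose velocity vectors (one-sided at the
ends) are causal and future-directed. -/
def Spacetime.Segment (S : Spacetime n E M) (x y : M) : Prop :=
  ∃ (a b : ℝ) (γ : ℝ → M), a < b ∧ γ a = x ∧ γ b = y ∧
    ContMDiffOn 𝓘(ℝ, ℝ) 𝓘(ℝ, E) ∞ γ (Set.Icc a b) ∧
    ∀ s ∈ Set.Icc a b,
      S.FutureCausal (γ s) (mfderivWithin 𝓘(ℝ, ℝ) 𝓘(ℝ, E) γ (Set.Icc a b) s (1 : ℝ))

/-- The after relation: a piecewise smooth causal curve (a finite concatenation of smooth causal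
segments) runs from `x` to `y`. -/
def Spacetime.After (S : Spacetime n E M) : M → M → Prop := Relation.TransGen S.Segment

/-- causally non-totally vicious -/
def Spacetime.CNTV (S : Spacetime n E M) : Prop := ∃ x : M, ¬ S.After x x

/-- Modal formulas. -/
inductive Form : Type
  | var : ℕ → Form
  | neg : Form → Form
  | and : Form → Form → Form
  | or : Form → Form → Form
  | imp : Form → Form → Form
  | dia : Form → Form

/-- Kripke semantics on the frame `(W, R)` under the valuation `V`. -/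
def Form.Sat {W : Type} (R : W → W → Prop) (V : ℕ → W → Prop) : Form → W → Prop
  | .var k, x => V k x
  | .neg φ, x => ¬ φ.Sat R V x
  | .and φ ψ, x => φ.Sat R V x ∧ ψ.Sat R V x
  | .or φ ψ, x => φ.Sat R V x ∨ ψ.Sat R V x
  | .imp φ ψ, x => φ.Sat R V x → ψ.Sat R V x
  | .dia φ, x => ∃ y, R x y ∧ φ.Sat R V y

/-- Validity on a frame. -/
def Form.Valid {W : Type} (R : W → W → Prop) (φ : Form) : Prop :=
  ∀ (V : ℕ → W → Prop) (x : W), φ.Sat R V x

/-- box is `¬ ◇ ¬` -/
def Form.box (φ : Form) : Form := φ.neg.dia.neg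

/-- `β_i = p_i ∧ ¬ p_j ∧ □ ¬ p_j` -/
def betaF (i j : ℕ) : Form := (Form.var i).and ((Form.var j).neg.and (Form.var j).neg.box)

/-- `γ_i = ◇ (◇ p_i ∧ ◇ q)`, where `q` is the variable `0` -/
def gammaF (i : ℕ) : Form := ((Form.var i).dia.and (Form.var 0).dia).dia

/-- The after-2 formula `(◇ β_1 ∧ ◇ β_2 ∧ ◇ q) ⇒ (γ_1 ∨ γ_2)`. -/
def after2 : Form :=
  ((betaF 1 2).dia.and ((betaF 2 1).dia.and (Form.var 0).dia)).imp ((gammaF 1).or (gammaF 2))

end Pool.Agent.MP_98ebd8_lc
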