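import Mathlib.Analysis.Normed.Module.Convex
import Mathlib.Algebra.Order.Star.Real
import Mathlib.AlgebraicTopology.FundamentalGroupoid.SimplyConnected
import Mathlib.Analysis.Convex.Contractible
import Mathlib.Geometry.Manifold.VectorField.Pullback
import Mathlib.Geometry.Manifold.Instances.Real
import Mathlib.Geometry.Manifold.Sheaf.Basic
import Pool.Agent.MP_98ebd8_lc.Defs

/-! The metric `-2 dt ω - t² ω² + dv² + dz²`, `ω = du + t² dv`, on `ℝ^(m+3)`. -/

set_option maxSynthPendingDepth 3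

namespace Pool.Agent.MP_98ebd8_lc

open scoped Manifold ContDiff
open Bundle

abbrev E (m : ℕ) := EuclideanSpace ℝ (Fin (m + 3))

variable {m : ℕ}

noncomputable def tens (i j : Fin (m + 3)) : E m →L[ℝ] E m →L[ℝ] ℝ :=
  (EuclideanSpace.proj i : E m →L[ℝ] ℝ).smulRight (EuclideanSpace.proj j : E m →L[ℝ] ℝ)

@[simp] lemma tens_apply (i j : Fin (m + 3)) (v w : E m) : tens i j v w = v i * w j := by
  simp [tens]

noncomputable def gm (x : E m) : E m →L[ℝ] E m →L[ℝ] ℝ :=
  (∑ i : Fin m, tens i.succ.succ.succ i.succ.succ.succ + tens 2 2 - tens 0 1 - tens 1 0)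
    - (x 0) ^ 2 • (tens 0 2 + tens 2 0 + tens 1 1) - (x 0) ^ 4 • (tens 1 2 + tens 2 1)
    - (x 0) ^ 6 • tens 2 2

/-- the inner product of the extra coordinates -/
def rest (v w : E m) : ℝ := ∑ i : Fin m, v i.succ.succ.succ * w i.succ.succ.succ

lemma rest_nonneg (v : E m) : 0 ≤ rest v v := Finset.sum_nonneg fun _ _ => mul_self_nonneg _

lemma gm_apply (x v w : E m) : gm x v w =
    -(v 0 * (w 1 + x 0 ^ 2 * w 2) + (v 1 + x 0 ^ 2 * v 2) * w 0)
      - x 0 ^ 2 * (v 1 + x 0 ^ 2 * v 2) * (w 1 + x 0 ^ 2 * w 2) + v 2 * w 2 + rest v w := by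
  simp only [gm, sub_apply, add_apply, sum_apply, smul_apply, tens_apply, smul_eq_mul, rest]
  ring

lemma gm_symm (x v w : E m) : gm x v w = gm x w v := by
  rw [gm_apply, gm_apply]
  simp only [rest, mul_comm]
  ring

lemma gm_contDiff : ContDiff ℝ ∞ (gm : E m → E m →L[ℝ] E m →L[ℝ] ℝ) := by
  unfold gm
  have h : ContDiff ℝ ∞ fun x : E m => x 0 := (EuclideanSpace.proj (0 : Fin (m + 3)) : E m →L[ℝ] ℝ).contDiff
  exact ((contDiff_const.sub ((h.pow 2).smul contDiff_const)).sub
    ((h.pow 4).smul contDiff_const)).sub ((h.pow 6).smul contDiff_const)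

/-- vector with prescribed first three coordinates and the other coordinates of `z` -/
noncomputable def vec (t u v : ℝ) (z : E m) : E m :=
  WithLp.toLp 2 (Fin.cons t (Fin.cons u (Fin.cons v fun i => z i.succ.succ.succ)))

@[simp] lemma vec_zero (t u v : ℝ) (z : E m) : vec t u v z 0 = t := rfl
@[simp] lemma vec_one (t u v : ℝ) (z : E m) : vec t u v z 1 = u := rfl
@[simp] lemma vec_two (t u v : ℝ) (z : E m) : vec t u v z 2 = v := rfl
@[simp] lemma vec_rest (t u v : ℝ) (z : E m) (i : Fin m) :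
    vec t u v z i.succ.succ.succ = z i.succ.succ.succ := rfl

lemma ext3 {x y : E m} (h0 : x 0 = y 0) (h1 : x 1 = y 1) (h2 : x 2 = y 2)
    (h : ∀ i : Fin m, x i.succ.succ.succ = y i.succ.succ.succ) : x = y := by
  ext i
  refine Fin.cases h0 (fun i => Fin.cases h1 (fun i => Fin.cases h2 h i) i) i

noncomputable def frame (x : E m) : Fin (m + 3) → E m :=
  Fin.cons (vec ((1 - x 0 ^ 2) / 2) 1 0 0) (Fin.cons (vec (-(1 + x 0 ^ 2) / 2) 1 0 0)
    (Fin.cons (vec 0 (-x 0 ^ 2) 1 0) fun i => vec 0 0 0 (EuclideanSpace.single i.succ.succ.succ 1)))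

lemma frame_gram (x : E m) (i j : Fin (m + 3)) : gm x (frame x i) (frame x j)
    = if i = j then (if (i : ℕ) = 0 then -1 else 1) else 0 := by
  rw [gm_apply]
  refine Fin.cases ?_ (fun i => Fin.cases ?_ (fun i => Fin.cases ?_ (fun i => ?_) i) i) i <;>
  refine Fin.cases ?_ (fun j => Fin.cases ?_ (fun j => Fin.cases ?_ (fun j => ?_) j) j) j <;>
  simp only [frame, Fin.cons_zero, Fin.cons_succ, vec_zero, vec_one, vec_two, vec_rest, rest,
    Fin.succ_inj, Fin.succ_ne_zero, (Fin.succ_ne_zero _).symm, if_true, if_false, Fin.val_zero,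
    Fin.val_succ, Nat.succ_ne_zero, PiLp.zero_apply, mul_zero, zero_mul, Finset.sum_const_zero] <;>
  (try ring_nf)
  simp [eq_comm]

lemma frame_li (x : E m) : LinearIndependent ℝ (frame x) := by
  rw [Fintype.linearIndependent_iff]
  intro c hc j
  have := congrArg (fun v => gm x v (frame x j)) hc
  simp only [map_sum, map_smul, sum_apply, smul_apply,
    frame_gram, smul_eq_mul, mul_ite, mul_zero, Finset.sum_ite_eq', Finset.mem_univ, if_true,
    map_zero, zero_apply] at this
  split_ifs at this <;> linarith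

noncomputable def example3 (m : ℕ) : Spacetime (m + 3) (E m) (E m) where
  g := gm
  symm := gm_symm
  smooth := by
    intro x
    refine (contMDiffAt_section x).2 ?_
    convert! gm_contDiff.contMDiff x
    ext v w
    rename_i y
    rw [hom_trivializationAt_apply]
    have h1 : y ∈ (trivializationAt (E m) (TangentSpace (𝓡 (m + 3))) x).baseSet := by simp
    have h2 : ∀ u : E m, (trivializationAt (E m) (TangentSpace (𝓡 (m + 3))) x).symm y u = u := by
      intro u
      have := TangentBundle.symmL_model_space (𝕜 := ℝ) x y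
      have h3 := DFunLike.congr_fun this u
      rw [Trivialization.symmL_apply _ h1] at h3
      exact h3
    have := inCoordinates_apply_eq₂ (𝕜 := ℝ) (F₁ := E m) (F₂ := E m) (F₃ := ℝ)
      (E₁ := (TangentSpace (𝓡 (m + 3)) : E m → Type)) (E₂ := (TangentSpace (𝓡 (m + 3)) : E m → Type))
      (E₃ := Bundle.Trivial (E m) ℝ) (x₀ := x) (x := y) (ϕ := gm y) (v := v) (w := w) h1 h1
      (Set.mem_univ _)
    rw [h2, h2] at this
    refine this.trans ?_
    simp
    rfl
  signature x := by
    refine ⟨basisOfLinearIndependentOfCardEqFinrank (K := ℝ) (V := E m) (frame_li x) (by simp),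
      fun i j => ?_⟩
    have := frame_gram x i j
    rw [← this]
    have h := coe_basisOfLinearIndependentOfCardEqFinrank (K := ℝ) (V := E m) (frame_li x) (by simp)
    rw [← congrFun h i, ← congrFun h j]
    rfl
  time _ := vec 1 1 0 0
  time_smooth := contMDiff_vectorSpace_iff_contDiff.2 contDiff_const
  time_timelike x := by
    show gm x (vec 1 1 0 0) (vec 1 1 0 0) < 0
    rw [gm_apply]
    simp only [vec_zero, vec_one, vec_two, rest, vec_rest, PiLp.zero_apply, mul_zero,
      Finset.sum_const_zero]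
    nlinarith [sq_nonneg (x 0)]

/-- future causal vectors in coordinates -/
def FC (t : ℝ) (v : E m) : Prop :=
  -2 * v 0 * (v 1 + t ^ 2 * v 2) - t ^ 2 * (v 1 + t ^ 2 * v 2) ^ 2 + v 2 ^ 2 + rest v v ≤ 0 ∧
    0 < v 0 + (1 + t ^ 2) * (v 1 + t ^ 2 * v 2)

lemma futureCausal_iff (x v : E m) : (example3 m).FutureCausal x v ↔ FC (x 0) v := by
  have h1 : (example3 m).g.val x v v = -2 * v 0 * (v 1 + x 0 ^ 2 * v 2)
      - x 0 ^ 2 * (v 1 + x 0 ^ 2 * v 2) ^ 2 + v 2 ^ 2 + rest v v := by
    show gm x v v = _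
    rw [gm_apply]
    ring
  have h2 : (example3 m).g.val x ((example3 m).time x) v
      = -(v 0 + (1 + x 0 ^ 2) * (v 1 + x 0 ^ 2 * v 2)) := by
    show gm x (vec 1 1 0 0) v = _
    rw [gm_apply]
    simp only [vec_zero, vec_one, vec_two, rest, vec_rest, PiLp.zero_apply, zero_mul,
      Finset.sum_const_zero]
    ring
  unfold Spacetime.FutureCausal FC
  rw [h1, h2, neg_lt_zero]
  refine ⟨fun h => h.2, fun h => ⟨?_, h⟩⟩
  intro hv
  have hv' : v = 0 := hv
  subst hv'
  simpa using h.2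

end Pool.Agent.MP_98ebd8_lc
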