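import Mathlib.Tactic.Monotonicity.Lemmas
import Mathlib.Analysis.SpecialFunctions.ExpDeriv
import Mathlib.Analysis.Calculus.Deriv.MeanValue
import Pool.Agent.MP_98ebd8_lc.Metric

/-! The causal structure of the example. -/

namespace Pool.Agent.MP_98ebd8_lc

open scoped Manifold ContDiff
open Set

variable {m : ℕ}

lemma fence {t t' : ℝ → ℝ} {a b C : ℝ} (ht : ContinuousOn t (Icc a b))
    (hd : ∀ s ∈ Ico a b, HasDerivWithinAt t (t' s) (Ici s) s)
    (hb : ∀ s ∈ Ico a b, -(C * |t s|) ≤ t' s) (c K : ℝ) (hc : c ≤ t a)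
    (hK : ∀ y : ℝ, 0 < y → K * (c * y) < -(C * |c * y|)) :
    ∀ s ∈ Icc a b, c * Real.exp (K * (s - a)) ≤ t s := by
  intro s hs
  refine image_le_of_deriv_right_lt_deriv_boundary' (f := fun s => c * Real.exp (K * (s - a)))
    (f' := fun s => K * (c * Real.exp (K * (s - a)))) (by fun_prop) ?_ (by simpa using hc) ht hd
    ?_ hs
  · intro x _
    have h1 : HasDerivAt (fun s => K * (s - a)) K x := by
      simpa using ((hasDerivAt_id x).sub_const a).const_mul K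
    have h2 := (h1.exp.const_mul c).hasDerivWithinAt (s := Ici x)
    exact h2.congr_deriv (by ring)
  · intro x hx e
    have h1 := hb x hx
    rw [← e] at h1
    exact (hK _ (Real.exp_pos _)).trans_le h1

lemma fence_pos {t t' : ℝ → ℝ} {a b C : ℝ} (ht : ContinuousOn t (Icc a b))
    (hd : ∀ s ∈ Ico a b, HasDerivWithinAt t (t' s) (Ici s) s)
    (hb : ∀ s ∈ Ico a b, -(C * |t s|) ≤ t' s) (h0 : 0 < t a) : ∀ s ∈ Icc a b, 0 < t s := by
  intro s hs
  refine lt_of_lt_of_le (mul_pos h0 (Real.exp_pos _))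
    (fence ht hd hb (t a) (-(C + 1)) le_rfl (fun y hy => ?_) s hs)
  have := mul_pos h0 hy
  rw [abs_of_pos this]
  linarith

lemma fence_nonneg {t t' : ℝ → ℝ} {a b C : ℝ} (ht : ContinuousOn t (Icc a b))
    (hd : ∀ s ∈ Ico a b, HasDerivWithinAt t (t' s) (Ici s) s)
    (hb : ∀ s ∈ Ico a b, -(C * |t s|) ≤ t' s) (h0 : 0 ≤ t a) : ∀ s ∈ Icc a b, 0 ≤ t s := by
  intro s hs
  by_contra hneg
  push Not at hneg
  set y := Real.exp ((C + 1) * (s - a)) with hy
  have hypos : 0 < y := Real.exp_pos _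
  have hc : t s / 2 / y < 0 := div_neg_of_neg_of_pos (by linarith) hypos
  have := fence ht hd hb (t s / 2 / y) (C + 1) (by linarith) (fun z hz => by
    have h1 := mul_neg_of_neg_of_pos hc hz
    rw [abs_of_neg h1]
    linarith) s hs
  rw [← hy, div_mul_cancel₀ _ hypos.ne'] at this
  linarith

lemma FC.omega_nonneg {t : ℝ} {v : E m} (h : FC t v) : 0 ≤ v 1 + t ^ 2 * v 2 := by
  by_contra hneg
  push Not at hneg
  obtain ⟨h1, h2⟩ := h
  have := rest_nonneg v
  set w := v 1 + t ^ 2 * v 2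
  nlinarith [sq_nonneg (v 2), sq_nonneg t, mul_pos_of_neg_of_neg hneg hneg,
    mul_neg_of_neg_of_pos hneg h2, sq_nonneg (t * w)]

lemma FC.lower {t : ℝ} {v : E m} (h : FC t v) : -(t ^ 2 * (v 1 + t ^ 2 * v 2)) ≤ 2 * v 0 := by
  have h0 := h.omega_nonneg
  obtain ⟨h1, h2⟩ := h
  have := rest_nonneg v
  set w := v 1 + t ^ 2 * v 2
  rcases h0.eq_or_lt with h3 | h3
  · rw [← h3] at h2 ⊢
    linarith
  · by_contra hneg
    push Not at hneg
    nlinarith [sq_nonneg (v 2), mul_pos h3 (sub_pos.2 hneg)]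

lemma segment_iff (p q : E m) : (example3 m).Segment p q ↔
    ∃ (a b : ℝ) (γ : ℝ → E m), a < b ∧ γ a = p ∧ γ b = q ∧ ContDiffOn ℝ ∞ γ (Icc a b) ∧
      ∀ s ∈ Icc a b, FC (γ s 0) (derivWithin γ (Icc a b) s) := by
  unfold Spacetime.Segment
  simp only [contMDiffOn_iff_contDiffOn, mfderivWithin_eq_fderivWithin]
  refine exists_congr fun a => exists_congr fun b => exists_congr fun γ => ?_
  refine and_congr_right fun _ => and_congr_right fun _ => and_congr_right fun _ =>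
    and_congr_right fun _ => forall₂_congr fun s _ => ?_
  exact futureCausal_iff _ _

lemma segment_line (p X : E m) (h : ∀ s ∈ Icc (0 : ℝ) 1, FC (p 0 + s * X 0) X) :
    (example3 m).After p (p + X) := by
  refine Relation.TransGen.single ((segment_iff _ _).2
    ⟨0, 1, fun s => p + s • X, one_pos, by simp, by simp, by fun_prop, fun s hs => ?_⟩)
  have h1 : HasDerivAt (fun s : ℝ => p + s • X) X s := by
    simpa using ((hasDerivAt_id s).smul_const X).const_add p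
  rw [h1.hasDerivWithinAt.derivWithin (uniqueDiffOn_Icc one_pos s hs)]
  simpa using h s hs

/-- `q` lies on the null generator through `p`, after `p` -/
def Ahead (p q : E m) : Prop :=
  q 0 = 0 ∧ p 1 < q 1 ∧ q 2 = p 2 ∧ ∀ i : Fin m, q i.succ.succ.succ = p i.succ.succ.succ

lemma segment_inv {p q : E m} (h : (example3 m).Segment p q) :
    (0 < p 0 → 0 < q 0) ∧ (p 0 = 0 → 0 < q 0 ∨ Ahead p q) := by
  obtain ⟨a, b, γ, hab, rfl, rfl, hγ, hc⟩ := (segment_iff _ _).1 h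
  have hu : UniqueDiffOn ℝ (Icc a b) := uniqueDiffOn_Icc hab
  set X := derivWithin γ (Icc a b) with hX
  have hcont : ContinuousOn γ (Icc a b) := hγ.continuousOn
  have hXcont : ContinuousOn X (Icc a b) := hγ.continuousOn_derivWithin hu (by simp)
  have hder : ∀ s ∈ Icc a b, HasDerivWithinAt γ (X s) (Icc a b) s := fun s hs =>
    (hγ.differentiableOn (by simp) s hs).hasDerivWithinAt
  have hderi : ∀ (i : Fin (m + 3)), ∀ s ∈ Icc a b,
      HasDerivWithinAt (fun s => γ s i) (X s i) (Icc a b) s := fun i s hs =>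
    (EuclideanSpace.proj i : E m →L[ℝ] ℝ).hasFDerivAt.comp_hasDerivWithinAt s (hder s hs)
  have hconti : ∀ i : Fin (m + 3), ContinuousOn (fun s => γ s i) (Icc a b) := fun i =>
    (EuclideanSpace.proj i : E m →L[ℝ] ℝ).continuous.comp_continuousOn hcont
  have hXi : ∀ i : Fin (m + 3), ContinuousOn (fun s => X s i) (Icc a b) := fun i =>
    (EuclideanSpace.proj i : E m →L[ℝ] ℝ).continuous.comp_continuousOn hXcont
  obtain ⟨C, hC⟩ := isCompact_Icc.exists_bound_of_continuousOn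
    (f := fun s => γ s 0 * (X s 1 + γ s 0 ^ 2 * X s 2))
    ((hconti 0).mul ((hXi 1).add (((hconti 0).pow 2).mul (hXi 2))))
  have hb : ∀ s ∈ Ico a b, -(C * |γ s 0|) ≤ X s 0 := by
    intro s hs
    have h1 := (hc s (Ico_subset_Icc_self hs)).lower
    have h2 := hC s (Ico_subset_Icc_self hs)
    rw [Real.norm_eq_abs] at h2
    have h3 : γ s 0 ^ 2 * (X s 1 + γ s 0 ^ 2 * X s 2) ≤ C * |γ s 0| := by
      calc _ = γ s 0 * (X s 1 + γ s 0 ^ 2 * X s 2) * γ s 0 := by ring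
        _ ≤ |γ s 0 * (X s 1 + γ s 0 ^ 2 * X s 2) * γ s 0| := le_abs_self _
        _ ≤ _ := by rw [abs_mul]; exact mul_le_mul_of_nonneg_right h2 (abs_nonneg _)
    have h4 : 0 ≤ C * |γ s 0| := mul_nonneg ((abs_nonneg _).trans h2) (abs_nonneg _)
    linarith
  have hd : ∀ s ∈ Ico a b, HasDerivWithinAt (fun s => γ s 0) (X s 0) (Ici s) s := fun s hs =>
    (hderi 0 s (Ico_subset_Icc_self hs)).mono_of_mem_nhdsWithin (Icc_mem_nhdsGE_of_mem hs)
  have hpos : ∀ s ∈ Icc a b, 0 < γ s 0 → 0 < γ b 0 := by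
    intro s hs h0
    exact fence_pos (t := fun s => γ s 0) (t' := fun s => X s 0) (a := s) (b := b) (C := C)
      ((hconti 0).mono (Icc_subset_Icc_left hs.1))
      (fun r hr => hd r ⟨hs.1.trans hr.1, hr.2⟩) (fun r hr => hb r ⟨hs.1.trans hr.1, hr.2⟩) h0 b
      ⟨hs.2, le_rfl⟩
  refine ⟨hpos a ⟨le_rfl, hab.le⟩, fun h0 => ?_⟩
  have hnn := fence_nonneg (t := fun s => γ s 0) (t' := fun s => X s 0) (hconti 0) hd hb h0.ge
  rcases (hnn b ⟨hab.le, le_rfl⟩).eq_or_lt with hb0 | hb0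
  swap
  · exact Or.inl hb0
  right
  have hz : ∀ s ∈ Icc a b, γ s 0 = 0 := fun s hs =>
    le_antisymm (not_lt.1 fun h => (hpos s hs h).ne hb0) (hnn s hs)
  have hX0 : ∀ s ∈ Icc a b, X s 0 = 0 := fun s hs =>
    (hu s hs).eq_deriv _ (hderi 0 s hs)
      ((hasDerivWithinAt_const s (Icc a b) (0 : ℝ)).congr hz (hz s hs))
  have hc' : ∀ s ∈ Icc a b, X s 2 ^ 2 + rest (X s) (X s) ≤ 0 ∧ 0 < X s 1 := fun s hs => by
    have := hc s hs
    unfold FC at this
    rw [hz s hs, hX0 s hs] at this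
    simpa using this
  have hconst : ∀ i : Fin (m + 3), (∀ s ∈ Icc a b, X s i = 0) → γ b i = γ a i := fun i hi =>
    constant_of_derivWithin_zero (f := fun s => γ s i)
      (fun s hs => (hderi i s hs).differentiableWithinAt)
      (fun s hs => by
        rw [(hderi i s (Ico_subset_Icc_self hs)).derivWithin (hu s (Ico_subset_Icc_self hs))]
        exact hi s (Ico_subset_Icc_self hs)) b ⟨hab.le, le_rfl⟩
  refine ⟨hb0.symm, ?_, hconst 2 fun s hs => ?_, fun i => hconst _ fun s hs => ?_⟩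
  · refine strictMonoOn_of_deriv_pos (convex_Icc a b) (hconti 1) (fun s hs => ?_)
      ⟨le_rfl, hab.le⟩ ⟨hab.le, le_rfl⟩ hab
    rw [interior_Icc] at hs
    rw [((hderi 1 s (Ioo_subset_Icc_self hs)).hasDerivAt (Icc_mem_nhds hs.1 hs.2)).deriv]
    exact (hc' s (Ioo_subset_Icc_self hs)).2
  · have := rest_nonneg (X s)
    nlinarith [(hc' s hs).1]
  · have h1 : rest (X s) (X s) = 0 :=
      le_antisymm (by nlinarith [(hc' s hs).1, sq_nonneg (X s 2)]) (rest_nonneg _)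
    have := (Finset.sum_eq_zero_iff_of_nonneg fun _ _ => mul_self_nonneg _).1 h1 i
      (Finset.mem_univ i)
    exact mul_self_eq_zero.1 this

lemma after_inv {p q : E m} (h : (example3 m).After p q) (hp : p 0 = 0) : 0 < q 0 ∨ Ahead p q := by
  induction h with
  | single h => exact (segment_inv h).2 hp
  | tail _ h ih =>
    rcases ih with ih | ih
    · exact Or.inl ((segment_inv h).1 ih)
    · rcases (segment_inv h).2 ih.1 with h' | h'
      · exact Or.inl h'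
      · exact Or.inr ⟨h'.1, ih.2.1.trans h'.2.1, h'.2.2.1.trans ih.2.2.1,
          fun i => (h'.2.2.2 i).trans (ih.2.2.2 i)⟩

lemma rest_zero (t u v : ℝ) : rest (vec t u v (0 : E m)) (vec t u v 0) = 0 := by
  simp [rest]

/-- sliding between two levels of the same sign -/
lemma slide (t₀ t₁ : ℝ) (h : 0 < t₀ * t₁) : ∃ K₀ : ℝ, ∀ K, K₀ ≤ K → ∀ p : E m, p 0 = t₀ →
    (example3 m).After p (p + vec (t₁ - t₀) K 0 0) := by
  have h0 : t₀ ≠ 0 := by rintro rfl; simp at h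
  have h1 : t₁ ≠ 0 := by rintro rfl; simp at h
  set μ := min (t₀ ^ 2) (min (t₁ ^ 2) (t₀ * t₁)) with hμ
  have hμpos : 0 < μ := lt_min (by positivity) (lt_min (by positivity) h)
  have e0 : μ ≤ t₀ ^ 2 := min_le_left _ _
  have e1 : μ ≤ t₁ ^ 2 := (min_le_right _ _).trans (min_le_left _ _)
  have e2 : μ ≤ t₀ * t₁ := (min_le_right _ _).trans (min_le_right _ _)
  refine ⟨2 * |t₁ - t₀| / μ + |t₁ - t₀| + 1, fun K hK p hp => segment_line _ _ fun s hs => ?_⟩
  have ha := abs_nonneg (t₁ - t₀)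
  have hdiv : 0 ≤ 2 * |t₁ - t₀| / μ := by positivity
  have hK0 : 0 < K := by linarith
  have hK1 : 2 * |t₁ - t₀| ≤ K * μ := by
    rw [← div_le_iff₀ hμpos]; linarith
  have hτ : μ ≤ (t₀ + s * (t₁ - t₀)) ^ 2 := by
    obtain ⟨s0, s1⟩ := hs
    have s2 : 0 ≤ 1 - s := by linarith
    nlinarith [mul_le_mul_of_nonneg_left e0 (mul_nonneg s2 s2),
      mul_le_mul_of_nonneg_left e1 (mul_nonneg s0 s0),
      mul_le_mul_of_nonneg_left e2 (mul_nonneg s0 s2)]
  have hn := neg_abs_le (t₁ - t₀)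
  unfold FC
  simp only [vec_zero, vec_one, vec_two, rest_zero, hp, mul_zero, add_zero]
  set τ := (t₀ + s * (t₁ - t₀)) ^ 2
  constructor
  · nlinarith [mul_le_mul_of_nonneg_left hτ (mul_pos hK0 hK0).le,
      mul_le_mul_of_nonneg_left hK1 hK0.le, mul_le_mul_of_nonneg_left hn hK0.le]
  · nlinarith [mul_le_mul_of_nonneg_left hτ hK0.le, mul_pos hμpos hK0]

lemma after_same_sign (p q : E m) (h : 0 < p 0 * q 0) : (example3 m).After p q := by
  obtain ⟨σ, hσ, hp, hq⟩ : ∃ σ : ℝ, σ ^ 2 = 1 ∧ 0 < p 0 * σ ∧ 0 < σ * q 0 := by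
    rcases mul_pos_iff.1 h with h | h
    · exact ⟨1, by norm_num, by simpa using h.1, by simpa using h.2⟩
    · exact ⟨-1, by norm_num, by simpa using h.1, by simpa using h.2⟩
  obtain ⟨K₁, h₁⟩ := slide (m := m) (p 0) σ hp
  obtain ⟨K₂, h₂⟩ := slide (m := m) σ (3 * σ) (by nlinarith)
  obtain ⟨K₃, h₃⟩ := slide (m := m) (3 * σ) (q 0) (by nlinarith)
  set D : E m := q - p with hD
  have hr := rest_nonneg D
  set α : ℝ := |K₁ + K₂ + K₃ - 4 * D 2 - D 1| + |D 2| + rest D D + 1 with hα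
  have a1 := le_abs_self (K₁ + K₂ + K₃ - 4 * D 2 - D 1)
  have a2 := abs_nonneg (K₁ + K₂ + K₃ - 4 * D 2 - D 1)
  have a3 := neg_abs_le (D 2)
  have a4 := abs_nonneg (D 2)
  have s1 := h₁ (α + 4 * D 2 + D 1 - K₂ - K₃) (by linarith) p rfl
  set p₁ := p + vec (σ - p 0) (α + 4 * D 2 + D 1 - K₂ - K₃) 0 0 with hp₁
  have e1 : p₁ 0 = σ := by simp [hp₁]
  have s2 : (example3 m).After p₁ (p₁ + vec 0 (3 * α) (-α) D) := by
    refine segment_line _ _ fun s _ => ?_
    have : rest (vec 0 (3 * α) (-α) D) (vec 0 (3 * α) (-α) D) = rest D D := rfl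
    unfold FC
    simp only [vec_zero, vec_one, vec_two, this, e1, mul_zero, add_zero, hσ]
    constructor <;> nlinarith
  set p₂ := p₁ + vec 0 (3 * α) (-α) D with hp₂
  have e2 : p₂ 0 = σ := by simp [hp₂, e1]
  have s3 := h₂ K₂ le_rfl p₂ e2
  set p₃ := p₂ + vec (3 * σ - σ) K₂ 0 0 with hp₃
  have e3 : p₃ 0 = 3 * σ := by simp [hp₃, e2]
  have s4 : (example3 m).After p₃ (p₃ + vec 0 (-4 * (α + D 2)) (α + D 2) 0) := by
    refine segment_line _ _ fun s _ => ?_
    have h9 : (3 * σ) ^ 2 = 9 := by rw [mul_pow, hσ]; norm_num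
    have hb : 0 < α + D 2 := by linarith
    unfold FC
    simp only [vec_zero, vec_one, vec_two, rest_zero, e3, mul_zero, add_zero, h9]
    constructor <;> nlinarith
  set p₄ := p₃ + vec 0 (-4 * (α + D 2)) (α + D 2) 0 with hp₄
  have e4 : p₄ 0 = 3 * σ := by simp [hp₄, e3]
  have s5 := h₃ K₃ le_rfl p₄ e4
  have e5 : p₄ + vec (q 0 - 3 * σ) K₃ 0 0 = q := by
    refine ext3 ?_ ?_ ?_ fun i => ?_
    · simp [e4]
    · simp [hp₄, hp₃, hp₂, hp₁, hD]; ring
    · simp [hp₄, hp₃, hp₂, hp₁, hD]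
    · simp only [hp₄, hp₃, hp₂, hp₁, hD, PiLp.add_apply, vec_rest, PiLp.zero_apply, PiLp.sub_apply]
      ring
  rw [e5] at s5
  exact (((s1.trans s2).trans s3).trans s4).trans s5

lemma after_up (p q : E m) (hp : 0 ≤ p 0) (hq : 0 < q 0) : (example3 m).After p q := by
  have s1 : (example3 m).After p (p + vec 1 0 0 0) := by
    refine segment_line _ _ fun s _ => ?_
    unfold FC
    simp [rest_zero]
  refine s1.trans (after_same_sign _ _ (mul_pos ?_ hq))
  simp only [PiLp.add_apply, vec_zero]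
  linarith

lemma after_ahead (p q : E m) (hp : p 0 = 0) (h : Ahead p q) : (example3 m).After p q := by
  have s1 : (example3 m).After p (p + vec 0 (q 1 - p 1) 0 0) := by
    refine segment_line _ _ fun s _ => ?_
    unfold FC
    simp [rest_zero, hp, h.2.1]
  have e : p + vec 0 (q 1 - p 1) 0 0 = q := by
    refine ext3 ?_ ?_ ?_ fun i => ?_
    · simp [hp, h.1]
    · simp
    · simp [h.2.2.1]
    · simp only [PiLp.add_apply, vec_rest, PiLp.zero_apply, add_zero, h.2.2.2 i]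
  rwa [e] at s1

theorem example_cntv : (example3 m).CNTV := by
  refine ⟨0, fun h => ?_⟩
  rcases after_inv h rfl with h | h
  · simp at h
  · exact lt_irrefl _ h.2.1

theorem example_valid : after2.Valid (example3 m).After := by
  rintro V x ⟨⟨y₁, h₁, p₁, -, n₁⟩, ⟨y₂, h₂, p₂, q₂, n₂⟩, ⟨z, hz, pz⟩⟩
  by_cases hx : x 0 = 0
  swap
  · exact Or.inl ⟨x, after_same_sign x x (mul_self_pos.2 hx), ⟨y₁, h₁, p₁⟩, ⟨z, hz, pz⟩⟩
  exfalso
  have n12 : ¬ (example3 m).After y₁ y₂ := fun h => n₁ ⟨y₂, h, fun h' => h' p₂⟩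
  have n21 : ¬ (example3 m).After y₂ y₁ := fun h => n₂ ⟨y₁, h, fun h' => h' p₁⟩
  have hne : y₁ ≠ y₂ := fun h => q₂ (h ▸ p₁)
  rcases after_inv h₁ hx with a₁ | a₁ <;> rcases after_inv h₂ hx with a₂ | a₂
  · exact n12 (after_up _ _ a₁.le a₂)
  · exact n21 (after_up _ _ a₂.1.ge a₁)
  · exact n12 (after_up _ _ a₁.1.ge a₂)
  · have e2 : y₂ 2 = y₁ 2 := a₂.2.2.1.trans a₁.2.2.1.symm
    have e3 : ∀ i : Fin m, y₂ i.succ.succ.succ = y₁ i.succ.succ.succ := fun i =>
      (a₂.2.2.2 i).trans (a₁.2.2.2 i).symm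
    rcases lt_trichotomy (y₁ 1) (y₂ 1) with h | h | h
    · exact n12 (after_ahead _ _ a₁.1 ⟨a₂.1, h, e2, e3⟩)
    · exact hne (ext3 (a₁.1.trans a₂.1.symm) h e2.symm fun i => (e3 i).symm)
    · exact n21 (after_ahead _ _ a₂.1 ⟨a₁.1, h, e2.symm, fun i => (e3 i).symm⟩)

end Pool.Agent.MP_98ebd8_lc
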